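import Mathlib

/-!
# A nilpotent group, not virtually abelian, with two minimal closed right ideals in `βG`
-/

set_option autoImplicit false

namespace Pool.Agent.Results.MP_be5e04_al.TwoMinimalIdeals

open Filter Set

attribute [local instance] Ultrafilter.mul

/-! ### The notions of the problem -/

/-- `R` is a closed right ideal of `βG`, the space of ultrafilters on `G` with the multiplication
`A ∈ p * q ↔ {g | {h | g * h ∈ A} ∈ q} ∈ p` and the topology of the Stone-Čech compactification. -/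
structure IsClosedRightIdeal (G : Type) [Group G] (R : Set (Ultrafilter G)) : Prop where
  nonempty : R.Nonempty
  closed : IsClosed R
  mul_mem : ∀ p ∈ R, ∀ q : Ultrafilter G, p * q ∈ R

/-- A minimal closed right ideal: it contains no strictly smaller closed right ideal. -/
def IsMinimalClosedRightIdeal (G : Type) [Group G] (R : Set (Ultrafilter G)) : Prop :=
  IsClosedRightIdeal G R ∧ ∀ R' : Set (Ultrafilter G), IsClosedRightIdeal G R' → R' ⊆ R → R' = R

/-- `A` is `n`-syndetic: for some finite `F` every set `S` with at most `n` elements is contained in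
`f A` for some `f ∈ F`. -/
def NSyndetic (G : Type) [Group G] (n : ℕ) (A : Set G) : Prop :=
  ∃ F : Finset G, ∀ S : Finset G, S.card ≤ n → ∃ f ∈ F, (S : Set G) ⊆ (fun a => f * a) '' A

/-- `A` is completely syndetic: it is `n`-syndetic for all `n ≥ 1`. -/
def CompletelySyndetic (G : Type) [Group G] (A : Set G) : Prop := ∀ n, 1 ≤ n → NSyndetic G n A

/-- `G` is virtually abelian: it has an abelian subgroup of finite index. -/
def VirtuallyAbelian (G : Type) [Group G] : Prop :=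
  ∃ H : Subgroup G, H.FiniteIndex ∧ ∀ a ∈ H, ∀ b ∈ H, a * b = b * a

/-! ### The group -/

/-- The bilinear map `(u, w) ↦ (u_i w_j)`. -/
noncomputable def B (u w : ℕ →₀ ZMod 2) : (ℕ × ℕ) →₀ ZMod 2 :=
  Finsupp.onFinset (u.support ×ˢ w.support) (fun p => u p.1 * w p.2) (by
    intro p hp
    simp only [Finset.mem_product, Finsupp.mem_support_iff]
    exact ⟨left_ne_zero_of_mul hp, right_ne_zero_of_mul hp⟩)

@[simp] lemma B_apply (u w : ℕ →₀ ZMod 2) (p : ℕ × ℕ) : B u w p = u p.1 * w p.2 := rfl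

/-- The group: pairs `(v, z)` with the product `(v, z) (v', z') = (v + v', z + z' + B v v')`. -/
@[ext] structure Gp where
  v : ℕ →₀ ZMod 2
  z : (ℕ × ℕ) →₀ ZMod 2

noncomputable instance : Mul Gp := ⟨fun a b => ⟨a.v + b.v, a.z + b.z + B a.v b.v⟩⟩
noncomputable instance : One Gp := ⟨⟨0, 0⟩⟩
noncomputable instance : Inv Gp := ⟨fun a => ⟨-a.v, -a.z + B a.v a.v⟩⟩

lemma mul_v (a b : Gp) : (a * b).v = a.v + b.v := rfl
lemma mul_z (a b : Gp) : (a * b).z = a.z + b.z + B a.v b.v := rfl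
lemma one_v : (1 : Gp).v = 0 := rfl
lemma one_z : (1 : Gp).z = 0 := rfl
lemma inv_v (a : Gp) : (a⁻¹).v = -a.v := rfl
lemma inv_z (a : Gp) : (a⁻¹).z = -a.z + B a.v a.v := rfl

noncomputable instance : Group Gp := Group.ofLeftAxioms
  (by
    intro a b c
    ext i
    · simp [mul_v, add_assoc]
    · simp [mul_v, mul_z]
      ring)
  (by
    intro a
    ext i
    · simp [mul_v, one_v]
    · simp [mul_z, one_v, one_z])
  (by
    intro a
    ext i
    · simp [mul_v, one_v, inv_v]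
    · simp only [mul_z, one_z, inv_v, inv_z, Finsupp.add_apply, Finsupp.neg_apply, B_apply,
        Finsupp.coe_zero, Pi.zero_apply]
      ring)

lemma mul_v_apply (a b : Gp) (i : ℕ) : (a * b).v i = a.v i + b.v i := rfl
lemma mul_z_apply (a b : Gp) (p : ℕ × ℕ) : (a * b).z p = a.z p + b.z p + a.v p.1 * b.v p.2 := rfl

instance : Countable Gp := by
  have : Function.Injective (fun a : Gp => (a.v, a.z)) := by
    intro a b h
    simp only [Prod.mk.injEq] at h
    exact Gp.ext h.1 h.2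
  exact this.countable

lemma nilpotent : Group.IsNilpotent Gp := by
  let f : Gp →* Multiplicative (ℕ →₀ ZMod 2) :=
    { toFun := fun a => Multiplicative.ofAdd a.v
      map_one' := rfl
      map_mul' := fun a b => rfl }
  refine Subgroup.isNilpotent_of_ker_le_center f ?_
  intro a ha
  have ha' : a.v = 0 := ha
  rw [Subgroup.mem_center_iff]
  intro b
  ext i
  · simp [mul_v, ha']
  · simp [mul_z, ha']
    ring

lemma not_virtuallyAbelian : ¬ VirtuallyAbelian Gp := by
  rintro ⟨H, hH, hab⟩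
  have hfin : Finite (Gp ⧸ H) := inferInstance
  let E : ℕ → Gp := fun i => ⟨Finsupp.single i 1, 0⟩
  obtain ⟨c, hc⟩ := Finite.exists_infinite_fiber (fun i : ℕ => (QuotientGroup.mk (E i) : Gp ⧸ H))
  have hinf : ((fun i : ℕ => (QuotientGroup.mk (E i) : Gp ⧸ H)) ⁻¹' {c}).Infinite :=
    Set.infinite_coe_iff.1 hc
  obtain ⟨i, hi⟩ := hinf.nonempty
  obtain ⟨j, hj, hij⟩ := hinf.exists_gt i
  obtain ⟨k, hk, hjk⟩ := hinf.exists_gt j
  obtain ⟨l, hl, hkl⟩ := hinf.exists_gt k
  have hx : (E i)⁻¹ * E j ∈ H := by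
    rw [← QuotientGroup.eq]
    exact (show _ = c from hi).trans (show _ = c from hj).symm
  have hy : (E k)⁻¹ * E l ∈ H := by
    rw [← QuotientGroup.eq]
    exact (show _ = c from hk).trans (show _ = c from hl).symm
  have h := congrArg (fun a : Gp => a.z (i, k)) (hab _ hx _ hy)
  have e1 : ((E i)⁻¹ * E j).v i = -1 := by
    simp [mul_v, inv_v, E, hij.ne']
  have e2 : ((E k)⁻¹ * E l).v k = -1 := by
    simp [mul_v, inv_v, E, hkl.ne']
  have e3 : ((E k)⁻¹ * E l).v i = 0 := by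
    simp [mul_v, inv_v, E, (hij.trans hjk).ne', (hij.trans (hjk.trans hkl)).ne']
  simp only [mul_z_apply _ _ (i, k)] at h
  rw [e1, e2, e3] at h
  have : ((1 : ZMod 2)) = 0 := by
    have h2 : ((E i)⁻¹ * E j).z (i, k) + ((E k)⁻¹ * E l).z (i, k) + (-1) * (-1) =
      ((E k)⁻¹ * E l).z (i, k) + ((E i)⁻¹ * E j).z (i, k) + 0 * ((E i)⁻¹ * E j).v k := h
    linear_combination h2
  exact one_ne_zero this

/-- The finite subgroup of the elements with coordinates below `r`. -/
def K (r : ℕ) : Subgroup Gp where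
  carrier := {a | (∀ i, r ≤ i → a.v i = 0) ∧ ∀ p : ℕ × ℕ, (r ≤ p.1 ∨ r ≤ p.2) → a.z p = 0}
  mul_mem' := by
    rintro a b ⟨ha1, ha2⟩ ⟨hb1, hb2⟩
    refine ⟨fun i hi => by rw [mul_v_apply, ha1 i hi, hb1 i hi, add_zero], fun p hp => ?_⟩
    rw [mul_z_apply, ha2 p hp, hb2 p hp]
    rcases hp with hp | hp
    · rw [ha1 _ hp]
      simp
    · rw [hb1 _ hp]
      simp
  one_mem' := ⟨fun _ _ => rfl, fun _ _ => rfl⟩
  inv_mem' := by
    rintro a ⟨ha1, ha2⟩
    refine ⟨fun i hi => by rw [inv_v, Finsupp.neg_apply, ha1 i hi, neg_zero], fun p hp => ?_⟩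
    rw [inv_z, Finsupp.add_apply, Finsupp.neg_apply, ha2 p hp, B_apply]
    rcases hp with hp | hp
    · rw [ha1 _ hp]
      simp
    · rw [ha1 _ hp]
      simp

lemma mem_K {r : ℕ} {a : Gp} : a ∈ K r ↔ (∀ i, r ≤ i → a.v i = 0) ∧
    ∀ p : ℕ × ℕ, (r ≤ p.1 ∨ r ≤ p.2) → a.z p = 0 := Iff.rfl

lemma K_mono {r r' : ℕ} (h : r ≤ r') : K r ≤ K r' := by
  rintro a ⟨h1, h2⟩
  refine ⟨fun i hi => h1 i (h.trans hi), fun p hp => h2 p ?_⟩
  rcases hp with hp | hp
  · exact Or.inl (h.trans hp)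
  · exact Or.inr (h.trans hp)

/-! ### One level -/

lemma exists_v (r N : ℕ) (g : Fin N → ZMod 2) : ∃ v : ℕ →₀ ZMod 2,
    (∀ x : Fin N, v (r + x) = g x) ∧ (∀ i < r, v i = 0) ∧ ∀ i, r + N ≤ i → v i = 0 := by
  classical
  let h : ℕ → ZMod 2 := fun i => if hi : r ≤ i ∧ i < r + N then g ⟨i - r, by omega⟩ else 0
  refine ⟨Finsupp.onFinset (Finset.range (r + N)) h ?_, ?_, ?_, ?_⟩
  · intro i hi
    by_contra hc
    apply hi
    have : ¬ (r ≤ i ∧ i < r + N) := fun hh => hc (Finset.mem_range.2 hh.2)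
    simp only [h, dif_neg this]
  · intro x
    have hx : r ≤ r + (x : ℕ) ∧ r + (x : ℕ) < r + N := ⟨by omega, by have := x.2; omega⟩
    simp only [Finsupp.onFinset_apply, h, dif_pos hx]
    congr 1
    ext
    simp
  · intro i hi
    have : ¬ (r ≤ i ∧ i < r + N) := by omega
    simp only [Finsupp.onFinset_apply, h, dif_neg this]
  · intro i hi
    have : ¬ (r ≤ i ∧ i < r + N) := by omega
    simp only [Finsupp.onFinset_apply, h, dif_neg this]

lemma exists_z (r N : ℕ) (g : Fin N → Fin r → ZMod 2) : ∃ z : (ℕ × ℕ) →₀ ZMod 2,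
    (∀ (x : Fin N) (j : Fin r), z (r + x, j) = g x j) ∧
      ∀ p : ℕ × ℕ, (r + N ≤ p.1 ∨ r + N ≤ p.2) → z p = 0 := by
  classical
  let h : ℕ × ℕ → ZMod 2 := fun p => if hp : (r ≤ p.1 ∧ p.1 < r + N) ∧ p.2 < r then
    g ⟨p.1 - r, by omega⟩ ⟨p.2, hp.2⟩ else 0
  refine ⟨Finsupp.onFinset (Finset.range (r + N) ×ˢ Finset.range r) h ?_, ?_, ?_⟩
  · intro p hp
    by_contra hc
    apply hp
    have : ¬ ((r ≤ p.1 ∧ p.1 < r + N) ∧ p.2 < r) := fun hh =>
      hc (Finset.mem_product.2 ⟨Finset.mem_range.2 hh.1.2, Finset.mem_range.2 hh.2⟩)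
    simp only [h, dif_neg this]
  · intro x j
    have hx : (r ≤ r + (x : ℕ) ∧ r + (x : ℕ) < r + N) ∧ (j : ℕ) < r :=
      ⟨⟨by omega, by have := x.2; omega⟩, j.2⟩
    simp only [Finsupp.onFinset_apply, h]
    rw [dif_pos hx]
    congr 1
    ext
    simp
  · intro p hp
    have : ¬ ((r ≤ p.1 ∧ p.1 < r + N) ∧ p.2 < r) := by omega
    simp only [Finsupp.onFinset_apply, h, dif_neg this]

lemma exists_not_range {α : Type} [Fintype α] (n : ℕ) (hn : n < Fintype.card α) (g : Fin n → α) :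
    ∃ a, ∀ q, g q ≠ a := by
  by_contra hc
  push Not at hc
  have := Fintype.card_le_of_surjective g hc
  rw [Fintype.card_fin] at this
  omega

lemma zmod2 {x : ZMod 2} (h : x ≠ 0) : x = 1 := by
  revert x
  decide

/-- The existence of one level of the construction. -/
lemma level (n r : ℕ) (hr : 0 < r) : ∃ (r' : ℕ) (F : Set Gp) (T : Bool → Set Gp),
    r ≤ r' ∧ F.Finite ∧ (∀ f ∈ F, f ∈ K r') ∧
    (∀ f₁ ∈ F, ∀ f₂ ∈ F, (∀ i, r ≤ i → f₁.v i = f₂.v i) → f₁ = f₂) ∧
    (∀ ε ε', ∀ t₁ ∈ T ε, ∀ t₂ ∈ T ε', t₁ * t₂⁻¹ ∈ K r → t₁.v = t₂.v ∧ ε = ε') ∧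
    ∀ (g : Fin n → Gp) (ε : Bool), ∃ φ : Fin (n + 1) → Gp, Function.Injective φ ∧
      (∀ i, φ i ∈ F) ∧ ∀ i q, φ i * g q ∈ T ε := by
  classical
  let Ka : Type := Fin n × (Fin r → ZMod 2) × Bool
  let P : Type := (Ka → Fin n → ZMod 2) × (Ka → Fin n → Fin r → ZMod 2) × Fin (n + 1)
  let X : Type := (Ka × Fin n) ⊕ P
  let N : ℕ := Fintype.card X
  let e : X ≃ Fin N := Fintype.equivFin X
  -- the elements
  have hf : ∀ p : P, ∃ f : Gp,
      (∀ (κ : Ka) (a : Fin n), f.v (r + e (Sum.inl (κ, a))) = p.1 κ a) ∧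
      (∀ p' : P, f.v (r + e (Sum.inr p')) = if p' = p then 1 else 0) ∧
      (∀ i < r, f.v i = 0) ∧
      (∀ (κ : Ka) (a : Fin n) (j : Fin r), f.z (r + e (Sum.inl (κ, a)), j) = p.2.1 κ a j) ∧
      f ∈ K (r + N) := by
    intro p
    obtain ⟨v, hv1, hv2, hv3⟩ := exists_v r N (fun x => match e.symm x with
      | Sum.inl (κ, a) => p.1 κ a
      | Sum.inr p' => if p' = p then 1 else 0)
    obtain ⟨z, hz1, hz2⟩ := exists_z r N (fun x j => match e.symm x with
      | Sum.inl (κ, a) => p.2.1 κ a j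
      | Sum.inr _ => 0)
    refine ⟨⟨v, z⟩, ?_, ?_, hv2, ?_, ?_⟩
    · intro κ a
      simpa using hv1 (e (Sum.inl (κ, a)))
    · intro p'
      simpa using hv1 (e (Sum.inr p'))
    · intro κ a j
      simpa using hz1 (e (Sum.inl (κ, a))) j
    · exact ⟨hv3, hz2⟩
  choose f hf1 hf2 hf3 hf4 hf5 using hf
  let W : Ka → Gp → Fin n → Fin r → ZMod 2 := fun κ t a j => t.z (r + e (Sum.inl (κ, a)), j)
  let vo : Gp → Fin r → ZMod 2 := fun t j => t.v j
  let T : Bool → Set Gp := fun ε => {t | (∃ κ : Ka, W κ t = 0) ∧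
    ∀ κ : Ka, W κ t = 0 → κ.2 = (vo t, ε)}
  refine ⟨r + N, Set.range f, T, by omega, Set.finite_range f, ?_, ?_, ?_, ?_⟩
  · rintro _ ⟨p, rfl⟩
    exact hf5 p
  · rintro _ ⟨p, rfl⟩ _ ⟨p', rfl⟩ h
    have h1 := h (r + e (Sum.inr p)) (by omega)
    rw [hf2, hf2, if_pos rfl] at h1
    by_cases hp : p = p'
    · rw [hp]
    · rw [if_neg hp] at h1
      exact absurd h1 one_ne_zero
  · intro ε ε' t₁ ht₁ t₂ ht₂ hk
    obtain ⟨hk1, hk2⟩ := mem_K.1 hk
    have hW : ∀ κ, W κ t₁ = W κ t₂ := by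
      intro κ
      funext a j
      have h1 : t₁ = (t₁ * t₂⁻¹) * t₂ := by simp
      show t₁.z _ = t₂.z _
      conv_lhs => rw [h1]
      rw [mul_z_apply, hk2 _ (Or.inl (by simp)), hk1 _ (by simp)]
      simp
    obtain ⟨⟨κ, hκ⟩, h1⟩ := ht₁
    obtain ⟨_, h2⟩ := ht₂
    have e1 := h1 κ hκ
    have e2 := h2 κ (by rw [← hW κ]; exact hκ)
    rw [e1] at e2
    simp only [Prod.mk.injEq] at e2
    refine ⟨?_, e2.2⟩
    ext i
    rcases lt_or_ge i r with hi | hi
    · exact congrFun e2.1 ⟨i, hi⟩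
    · have h3 := hk1 i hi
      rw [mul_v_apply, inv_v, Finsupp.neg_apply] at h3
      exact eq_of_sub_eq_zero (by rw [sub_eq_add_neg]; exact h3)
  · intro g ε
    -- the choice of the parameters
    have hch : ∀ κ : Ka, ∃ (l : Fin n → ZMod 2) (c : Fin n → Fin r → ZMod 2),
        (κ.2 = (vo (g κ.1), ε) → ∀ a j, c a j + W κ (g κ.1) a j + l a * vo (g κ.1) j = 0) ∧
        ∀ q, (∀ a j, c a j + W κ (g q) a j + l a * vo (g q) j = 0) → κ.2 = (vo (g q), ε) := by
      intro κ
      by_cases hκ : κ.2 = (vo (g κ.1), ε)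
      · -- tuned to `g κ.1`
        have hj : ∀ q : Fin n, ∃ j : Fin r, vo (g q) ≠ vo (g κ.1) → vo (g q) j ≠ vo (g κ.1) j := by
          intro q
          by_cases h : vo (g q) = vo (g κ.1)
          · exact ⟨⟨0, hr⟩, fun h' => absurd h h'⟩
          · obtain ⟨j, hj⟩ := Function.ne_iff.1 h
            exact ⟨j, fun _ => hj⟩
        choose jq hjq using hj
        obtain ⟨l, hl⟩ := exists_not_range (α := Fin n → ZMod 2) n (by
          rw [Fintype.card_fun, ZMod.card, Fintype.card_fin]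
          exact Nat.lt_two_pow_self) (fun q a => W κ (g κ.1) a (jq q) - W κ (g q) a (jq q))
        refine ⟨l, fun a j => -(W κ (g κ.1) a j) - l a * vo (g κ.1) j, fun _ a j => by ring,
          fun q hq => ?_⟩
        by_cases h : vo (g q) = vo (g κ.1)
        · rw [hκ, h]
        · exfalso
          apply hl q
          funext a
          have h1 := hq a (jq q)
          have h2 : vo (g q) (jq q) - vo (g κ.1) (jq q) = 1 :=
            zmod2 (sub_ne_zero.2 (hjq q h))
          have h3 : l a * (vo (g q) (jq q) - vo (g κ.1) (jq q)) =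
              W κ (g κ.1) a (jq q) - W κ (g q) a (jq q) := by
            linear_combination h1
          rw [h2, mul_one] at h3
          exact h3.symm
      · obtain ⟨c, hc⟩ := exists_not_range (α := Fin n → Fin r → ZMod 2) n (by
          rw [Fintype.card_fun, Fintype.card_fun, ZMod.card, Fintype.card_fin, Fintype.card_fin]
          calc n < 2 ^ n := Nat.lt_two_pow_self
            _ ≤ (2 ^ r) ^ n := Nat.pow_le_pow_left (by
              calc 2 = 2 ^ 1 := by norm_num
                _ ≤ 2 ^ r := Nat.pow_le_pow_right (by norm_num) hr) n) (fun q a j => -(W κ (g q) a j))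
        refine ⟨0, c, fun h => absurd h hκ, fun q hq => ?_⟩
        exfalso
        apply hc q
        funext a j
        have h1 := hq a j
        simp only [Pi.zero_apply, zero_mul, add_zero] at h1
        exact (eq_neg_of_add_eq_zero_left h1).symm
    choose l c hlc1 hlc2 using hch
    refine ⟨fun k => f (l, c, k), ?_, fun k => ⟨_, rfl⟩, ?_⟩
    · intro k k' h
      have h1 := hf2 (l, c, k) (l, c, k)
      rw [if_pos rfl] at h1
      have h2 := hf2 (l, c, k') (l, c, k)
      have h' : f (l, c, k) = f (l, c, k') := h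
      rw [← h', h1] at h2
      by_contra hk
      rw [if_neg (fun h3 => hk (congrArg (fun p : P => p.2.2) h3))] at h2
      exact one_ne_zero h2
    · intro k q
      have hWf : ∀ (κ : Ka) (q : Fin n) (a : Fin n) (j : Fin r),
          W κ (f (l, c, k) * g q) a j = c κ a j + W κ (g q) a j + l κ a * vo (g q) j := by
        intro κ q a j
        show (f (l, c, k) * g q).z _ = _
        rw [mul_z_apply, hf4]
        simp only [hf1]
        rfl
      have hvf : ∀ q : Fin n, vo (f (l, c, k) * g q) = vo (g q) := by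
        intro q
        funext j
        show (f (l, c, k) * g q).v _ = _
        rw [mul_v_apply, hf3 _ _ j.2, zero_add]
      refine ⟨⟨(q, vo (g q), ε), ?_⟩, fun κ hκ => ?_⟩
      · funext a j
        rw [hWf]
        exact hlc1 (q, vo (g q), ε) rfl a j
      · rw [hvf]
        apply hlc2
        intro a j
        rw [← hWf]
        exact congrFun (congrFun hκ a) j



/-! ### All levels -/

/-- The sequence of levels. -/
lemma levels : ∃ (r : ℕ → ℕ) (F : ℕ → Set Gp) (T : ℕ → Bool → Set Gp),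
    (∀ n, r n ≤ r (n + 1)) ∧ (∀ n, (F n).Finite) ∧ (∀ n, ∀ f ∈ F n, f ∈ K (r (n + 1))) ∧
    (∀ n, ∀ f₁ ∈ F n, ∀ f₂ ∈ F n, (∀ i, r n ≤ i → f₁.v i = f₂.v i) → f₁ = f₂) ∧
    (∀ n, ∀ ε ε', ∀ t₁ ∈ T n ε, ∀ t₂ ∈ T n ε', t₁ * t₂⁻¹ ∈ K (r n) → t₁.v = t₂.v ∧ ε = ε') ∧
    ∀ n, ∀ (g : Fin n → Gp) (ε : Bool), ∃ φ : Fin (n + 1) → Gp, Function.Injective φ ∧
      (∀ i, φ i ∈ F n) ∧ ∀ i q, φ i * g q ∈ T n ε := by
  have h : ∀ n r : ℕ, ∃ (r' : ℕ) (F : Set Gp) (T : Bool → Set Gp), 0 < r → (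
    r ≤ r' ∧ F.Finite ∧ (∀ f ∈ F, f ∈ K r') ∧
    (∀ f₁ ∈ F, ∀ f₂ ∈ F, (∀ i, r ≤ i → f₁.v i = f₂.v i) → f₁ = f₂) ∧
    (∀ ε ε', ∀ t₁ ∈ T ε, ∀ t₂ ∈ T ε', t₁ * t₂⁻¹ ∈ K r → t₁.v = t₂.v ∧ ε = ε') ∧
    ∀ (g : Fin n → Gp) (ε : Bool), ∃ φ : Fin (n + 1) → Gp, Function.Injective φ ∧
      (∀ i, φ i ∈ F) ∧ ∀ i q, φ i * g q ∈ T ε) := by
    intro n r
    by_cases hr : 0 < r
    · obtain ⟨r', F, T, h⟩ := level n r hr
      exact ⟨r', F, T, fun _ => h⟩
    · exact ⟨0, ∅, fun _ => ∅, fun h => absurd h hr⟩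
  choose R F T hR using h
  let r : ℕ → ℕ := fun n => Nat.rec 1 (fun n x => R n x) n
  have hrs : ∀ n, r (n + 1) = R n (r n) := fun n => rfl
  have hpos : ∀ n, 0 < r n := by
    intro n
    induction n with
    | zero => exact one_pos
    | succ n ih =>
      rw [hrs]
      exact lt_of_lt_of_le ih (hR n (r n) ih).1
  refine ⟨r, fun n => F n (r n), fun n => T n (r n), fun n => ?_, fun n => ?_, fun n => ?_,
    fun n => ?_, fun n => ?_, fun n => ?_⟩
  · rw [hrs]
    exact (hR n (r n) (hpos n)).1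
  · exact (hR n (r n) (hpos n)).2.1
  · rw [hrs]
    exact (hR n (r n) (hpos n)).2.2.1
  · exact (hR n (r n) (hpos n)).2.2.2.1
  · exact (hR n (r n) (hpos n)).2.2.2.2.1
  · exact (hR n (r n) (hpos n)).2.2.2.2.2

/-- The colouring for finitely many levels. -/
lemma finite_levels (r : ℕ → ℕ) (F : ℕ → Set Gp) (T : ℕ → Bool → Set Gp)
    (hr : ∀ n, r n ≤ r (n + 1)) (hFK : ∀ n, ∀ f ∈ F n, f ∈ K (r (n + 1)))
    (hF : ∀ n, ∀ f₁ ∈ F n, ∀ f₂ ∈ F n, (∀ i, r n ≤ i → f₁.v i = f₂.v i) → f₁ = f₂)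
    (hT : ∀ n, ∀ ε ε', ∀ t₁ ∈ T n ε, ∀ t₂ ∈ T n ε', t₁ * t₂⁻¹ ∈ K (r n) → t₁.v = t₂.v ∧ ε = ε')
    (hS : ∀ n, ∀ (g : Fin n → Gp) (ε : Bool), ∃ φ : Fin (n + 1) → Gp, Function.Injective φ ∧
      (∀ i, φ i ∈ F n) ∧ ∀ i q, φ i * g q ∈ T n ε) :
    ∀ (n : ℕ) (U : Set Gp) (col : Gp → Bool),
      (∀ u₁ ∈ U, ∀ u₂ ∈ U, u₁ * u₂⁻¹ ∈ K (r n) → u₁.v = u₂.v) →
      ∃ χ : Gp → Bool, (∀ u ∈ U, χ u = col u) ∧
        ∀ m < n, ∀ (g : Fin m → Gp) (ε : Bool), ∃ f ∈ F m, ∀ q, χ (f * g q) = ε := by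
  classical
  intro n
  induction n with
  | zero =>
    intro U col _
    exact ⟨col, fun u _ => rfl, fun m hm => absurd hm (Nat.not_lt_zero m)⟩
  | succ n ih =>
    intro U col hU
    let A : Set Gp := {t | (t ∈ T n true ∨ t ∈ T n false) ∧ ∀ u ∈ U, t * u⁻¹ ∉ K (r n)}
    have hAT : ∀ t ∈ A, ∃ ε, t ∈ T n ε := by
      rintro t ⟨h | h, _⟩
      · exact ⟨_, h⟩
      · exact ⟨_, h⟩
    obtain ⟨χ, hχ1, hχ2⟩ := ih (U ∪ A) (fun t => if t ∈ U then col t else decide (t ∈ T n true))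
      (by
        rintro u₁ h₁ u₂ h₂ h
        rcases h₁ with h₁ | h₁ <;> rcases h₂ with h₂ | h₂
        · exact hU u₁ h₁ u₂ h₂ (K_mono (hr n) h)
        · exfalso
          apply h₂.2 u₁ h₁
          have := (K (r n)).inv_mem h
          simpa using this
        · exact absurd h (h₁.2 u₂ h₂)
        · obtain ⟨ε, h₁⟩ := hAT u₁ h₁
          obtain ⟨ε', h₂⟩ := hAT u₂ h₂
          exact (hT n ε ε' u₁ h₁ u₂ h₂ h).1)
    refine ⟨χ, fun u hu => ?_, fun m hm g ε => ?_⟩
    · rw [hχ1 u (Or.inl hu), if_pos hu]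
    · rcases Nat.lt_succ_iff_lt_or_eq.1 hm with hm | rfl
      · exact hχ2 m hm g ε
      · obtain ⟨φ, hφ1, hφ2, hφ3⟩ := hS m g ε
        have key : ∃ i, ∀ q, φ i * g q ∈ A := by
          by_contra hc
          push Not at hc
          have hc' : ∀ i, ∃ q, ∃ u ∈ U, (φ i * g q) * u⁻¹ ∈ K (r m) := by
            intro i
            obtain ⟨q, hq⟩ := hc i
            by_contra h
            push Not at h
            apply hq
            refine ⟨?_, h q⟩
            cases ε
            · exact Or.inr (hφ3 i q)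
            · exact Or.inl (hφ3 i q)
          choose q u hu hk using hc'
          obtain ⟨i, j, hij, hqq⟩ : ∃ i j, i ≠ j ∧ q i = q j := by
            by_contra h
            push Not at h
            have : Function.Injective q := by
              intro i j hq
              by_contra hne
              exact h i j hne hq
            have := Fintype.card_le_of_injective q this
            simp at this
          apply hij
          apply hφ1
          apply hF m _ (hφ2 i) _ (hφ2 j)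
          have hki := hk i
          have hkj := hk j
          rw [hqq] at hki
          have h1 : u i * (u j)⁻¹ ∈ K (r (m + 1)) := by
            have e : u i * (u j)⁻¹ = (φ i * g (q j) * (u i)⁻¹)⁻¹ * φ i * (φ j)⁻¹ *
                (φ j * g (q j) * (u j)⁻¹) := by group
            rw [e]
            exact (K _).mul_mem ((K _).mul_mem ((K _).mul_mem ((K _).inv_mem
              (K_mono (hr m) hki)) (hFK m _ (hφ2 i))) ((K _).inv_mem (hFK m _ (hφ2 j))))
              (K_mono (hr m) hkj)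
          have h2 := hU _ (hu i) _ (hu j) h1
          intro x hx
          have h3 := hki.1 x hx
          have h4 := hkj.1 x hx
          rw [mul_v_apply, mul_v_apply, inv_v, Finsupp.neg_apply] at h3 h4
          rw [h2] at h3
          exact add_right_cancel (add_right_cancel (h3.trans h4.symm))
        obtain ⟨i, hi⟩ := key
        refine ⟨φ i, hφ2 i, fun q => ?_⟩
        have hU' : φ i * g q ∉ U := by
          intro h
          apply (hi q).2 _ h
          rw [mul_inv_cancel]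
          exact one_mem _
        rw [hχ1 _ (Or.inr (hi q)), if_neg hU']
        cases ε with
        | true => exact decide_eq_true (hφ3 i q)
        | false =>
          apply decide_eq_false
          intro h
          have := (hT m true false _ h _ (hφ3 i q) (by
            rw [mul_inv_cancel]
            exact one_mem _)).2
          exact absurd this (by decide)

/-- The colouring. -/
lemma colouring : ∃ (F : ℕ → Set Gp) (χ : Gp → Bool), (∀ n, (F n).Finite) ∧
    ∀ m, ∀ (g : Fin m → Gp) (ε : Bool), ∃ f ∈ F m, ∀ q, χ (f * g q) = ε := by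
  classical
  obtain ⟨r, F, T, hr, hfin, hFK, hF, hT, hS⟩ := levels
  have h := fun n => finite_levels r F T hr hFK hF hT hS n ∅ (fun _ => true)
    (fun u hu => absurd hu (Set.notMem_empty u))
  choose χ _ hχ using h
  let 𝒰 : Ultrafilter ℕ := Filter.hyperfilter ℕ
  refine ⟨F, fun p => decide (∀ᶠ N in (𝒰 : Filter ℕ), χ N p = true), hfin, fun m g ε => ?_⟩
  have hlim : ∀ p, ∀ᶠ N in (𝒰 : Filter ℕ),
      χ N p = decide (∀ᶠ N in (𝒰 : Filter ℕ), χ N p = true) := by
    intro p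
    by_cases hp : ∀ᶠ N in (𝒰 : Filter ℕ), χ N p = true
    · filter_upwards [hp] with N hN
      rw [hN]
      exact (decide_eq_true hp).symm
    · have hp' := Ultrafilter.eventually_not.2 hp
      filter_upwards [hp'] with N hN
      rw [decide_eq_false hp]
      simpa using hN
  have hlarge : ∀ᶠ N in (𝒰 : Filter ℕ), m < N := by
    have : ∀ᶠ N in (Filter.cofinite : Filter ℕ), m < N := by
      rw [Nat.cofinite_eq_atTop]
      exact Filter.eventually_gt_atTop m
    exact Filter.hyperfilter_le_cofinite this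
  have h1 : ∀ᶠ N in (𝒰 : Filter ℕ), ∃ f ∈ F m, ∀ q, χ N (f * g q) = ε := by
    filter_upwards [hlarge] with N hN
    exact hχ N m hN g ε
  obtain ⟨f, hf, hf'⟩ : ∃ f ∈ F m, ∀ᶠ N in (𝒰 : Filter ℕ), ∀ q, χ N (f * g q) = ε := by
    by_contra hc
    push Not at hc
    have h2 : ∀ᶠ N in (𝒰 : Filter ℕ), ∀ f ∈ F m, ¬ ∀ q, χ N (f * g q) = ε := by
      rw [Filter.eventually_all_finite (hfin m)]
      intro f hf
      filter_upwards [hc f hf] with N hN hall
      obtain ⟨q, hq⟩ := hN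
      exact hq (hall q)
    obtain ⟨N, h3, h4⟩ := (h1.and h2).exists
    obtain ⟨f, hf, hff⟩ := h3
    exact h4 f hf hff
  refine ⟨f, hf, fun q => ?_⟩
  obtain ⟨N, h3, h4⟩ := (hf'.and (hlim (f * g q))).exists
  rw [← h3 q]
  exact h4.symm

/-! ### Completely syndetic sets and closed right ideals -/

lemma completelySyndetic_of {A : Set Gp}
    (h : ∀ m, ∃ F : Set Gp, F.Finite ∧ ∀ g : Fin m → Gp, ∃ f ∈ F, ∀ q, f * g q ∈ A) :
    CompletelySyndetic Gp A := by
  classical
  intro n hn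
  obtain ⟨F, hF, h⟩ := h n
  refine ⟨(hF.toFinset).image (fun f => f⁻¹), fun S hS => ?_⟩
  rcases S.eq_empty_or_nonempty with rfl | ⟨s₀, hs₀⟩
  · obtain ⟨f, hf, _⟩ := h (fun _ => 1)
    exact ⟨f⁻¹, Finset.mem_image.2 ⟨f, hF.mem_toFinset.2 hf, rfl⟩, by simp⟩
  · obtain ⟨g, hg⟩ : ∃ g : Fin n → Gp, ∀ s ∈ S, ∃ q, g q = s := by
      refine ⟨fun q => if hq : (q : ℕ) < S.card then
        (S.equivFin.symm ⟨q, hq⟩ : S) else s₀, fun s hs => ?_⟩
      refine ⟨⟨S.equivFin ⟨s, hs⟩, lt_of_lt_of_le (S.equivFin ⟨s, hs⟩).2 hS⟩, ?_⟩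
      simp
    obtain ⟨f, hf, hfg⟩ := h g
    refine ⟨f⁻¹, Finset.mem_image.2 ⟨f, hF.mem_toFinset.2 hf, rfl⟩, fun s hs => ?_⟩
    obtain ⟨q, rfl⟩ := hg s hs
    exact ⟨f * g q, hfg q, by simp⟩

/-- A completely syndetic set contains, in its closure, a closed right ideal. -/
lemma exists_ideal {G : Type} [Group G] {A : Set G}
    (h : ∀ m, ∃ F : Set G, F.Finite ∧ ∀ g : Fin m → G, ∃ f ∈ F, ∀ q, f * g q ∈ A) :
    ∃ R : Set (Ultrafilter G), IsClosedRightIdeal G R ∧ ∀ p ∈ R, A ∈ p := by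
  classical
  let D : Ultrafilter G → Set G := fun q => {f | ∀ᶠ m in (q : Filter G), f * m ∈ A}
  have hne : (Filter.generate (Set.range D)).NeBot := by
    rw [Filter.generate_neBot_iff]
    intro t ht htf
    obtain ⟨n, φ, hφ⟩ := htf.fin_embedding
    have : ∀ i, ∃ q, D q = φ i := by
      intro i
      exact ht (hφ ▸ Set.mem_range_self i)
    choose q hq using this
    obtain ⟨F, hF, hFA⟩ := h n
    have h1 : ∀ i, ∃ m : G, ∀ f ∈ F, f ∉ D (q i) → f * m ∉ A := by
      intro i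
      have : ∀ᶠ m in (q i : Filter G), ∀ f ∈ F, f ∉ D (q i) → f * m ∉ A := by
        rw [Filter.eventually_all_finite hF]
        intro f _
        by_cases hf : f ∈ D (q i)
        · exact Filter.Eventually.of_forall fun m h => absurd hf h
        · have h2 : ¬ ∀ᶠ m in (q i : Filter G), f * m ∈ A := hf
          filter_upwards [Ultrafilter.eventually_not.2 h2] with m hm _
          exact hm
      exact this.exists
    choose m hm using h1
    obtain ⟨f, hf, hfA⟩ := hFA m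
    refine ⟨f, ?_⟩
    rw [← hφ]
    rintro _ ⟨i, rfl⟩
    rw [← hq i]
    by_contra hc
    exact hm i f hf hc (hfA i)
  let x : Ultrafilter G := Ultrafilter.of (Filter.generate (Set.range D))
  have hx : ∀ q, D q ∈ x := fun q =>
    Ultrafilter.of_le _ (Filter.mem_generate_of_mem (Set.mem_range_self q))
  refine ⟨closure (Set.range fun q : Ultrafilter G => x * q), ⟨?_, isClosed_closure, ?_⟩, ?_⟩
  · exact ⟨x * x, subset_closure ⟨x, rfl⟩⟩
  · intro p hp q
    refine map_mem_closure (f := fun u : Ultrafilter G => u * q)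
      (Ultrafilter.continuous_mul_left q) hp ?_
    rintro _ ⟨q', rfl⟩
    refine ⟨q' * q, ?_⟩
    refine Ultrafilter.coe_inj.mp (Filter.ext' fun P => ?_)
    simp only [Ultrafilter.eventually_mul, mul_assoc]
  · intro p hp
    have h1 : closure (Set.range fun q : Ultrafilter G => x * q) ⊆ {u : Ultrafilter G | A ∈ u} := by
      apply closure_minimal _ (ultrafilter_isClosed_basic A)
      rintro _ ⟨q, rfl⟩
      exact hx q
    exact h1 hp

/-- Every closed right ideal contains a minimal one. -/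
lemma exists_minimal {G : Type} [Group G] {R : Set (Ultrafilter G)} (hR : IsClosedRightIdeal G R) :
    ∃ R' ⊆ R, IsMinimalClosedRightIdeal G R' := by
  obtain ⟨M, hMR, hM⟩ := zorn_superset_nonempty {R : Set (Ultrafilter G) | IsClosedRightIdeal G R}
    (by
      intro c hc hchain hcne
      refine ⟨⋂₀ c, ⟨?_, ?_, ?_⟩, fun s hs => Set.sInter_subset_of_mem hs⟩
      · have := hcne.to_subtype
        rw [Set.sInter_eq_iInter]
        apply IsCompact.nonempty_iInter_of_directed_nonempty_isCompact_isClosed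
        · intro a b
          rcases hchain.total a.2 b.2 with h | h
          · exact ⟨a, subset_rfl, h⟩
          · exact ⟨b, h, subset_rfl⟩
        · exact fun a => (hc a.2).nonempty
        · exact fun a => (hc a.2).closed.isCompact
        · exact fun a => (hc a.2).closed
      · exact isClosed_sInter fun s hs => (hc hs).closed
      · intro p hp q
        rw [Set.mem_sInter] at hp ⊢
        exact fun s hs => (hc hs).mul_mem p (hp s hs) q) R hR
  refine ⟨M, hMR, hM.prop, fun R' hR' hsub => ?_⟩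
  exact Set.Subset.antisymm hsub (hM.le_of_le hR' hsub)

/-- **A nilpotent group that is not virtually abelian with two minimal closed right ideals in its
Stone-Čech compactification.**  There is a countable nilpotent group `G` which is not virtually
abelian and can be partitioned into two completely syndetic sets `A` and `Aᶜ`; `βG` has two distinct
minimal closed right ideals, one in the closure of `A` and one in the closure of `Aᶜ`. -/
theorem result : ∃ (G : Type) (_ : Group G), Countable G ∧ Group.IsNilpotent G ∧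
    ¬ VirtuallyAbelian G ∧ ∃ A : Set G, CompletelySyndetic G A ∧ CompletelySyndetic G Aᶜ ∧
      ∃ R₁ R₂ : Set (Ultrafilter G), IsMinimalClosedRightIdeal G R₁ ∧
        IsMinimalClosedRightIdeal G R₂ ∧ R₁ ≠ R₂ ∧ (∀ p ∈ R₁, A ∈ p) ∧ ∀ p ∈ R₂, Aᶜ ∈ p := by
  obtain ⟨F, χ, hF, hχ⟩ := colouring
  have h1 : ∀ m, ∃ F : Set Gp, F.Finite ∧ ∀ g : Fin m → Gp, ∃ f ∈ F, ∀ q,
      f * g q ∈ {x | χ x = true} := fun m => ⟨F m, hF m, fun g => hχ m g true⟩
  have h2 : ∀ m, ∃ F : Set Gp, F.Finite ∧ ∀ g : Fin m → Gp, ∃ f ∈ F, ∀ q,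
      f * g q ∈ {x | χ x = true}ᶜ := by
    intro m
    refine ⟨F m, hF m, fun g => ?_⟩
    obtain ⟨f, hf, hfg⟩ := hχ m g false
    exact ⟨f, hf, fun q => by
      show ¬ χ (f * g q) = true
      rw [hfg q]
      decide⟩
  obtain ⟨R₁, hR₁, hA₁⟩ := exists_ideal h1
  obtain ⟨R₂, hR₂, hA₂⟩ := exists_ideal h2
  obtain ⟨M₁, hM₁, hm₁⟩ := exists_minimal hR₁
  obtain ⟨M₂, hM₂, hm₂⟩ := exists_minimal hR₂
  refine ⟨Gp, inferInstance, inferInstance, nilpotent, not_virtuallyAbelian, {x | χ x = true},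
    completelySyndetic_of h1, completelySyndetic_of h2, M₁, M₂, hm₁, hm₂, ?_,
    fun p hp => hA₁ p (hM₁ hp), fun p hp => hA₂ p (hM₂ hp)⟩
  rintro rfl
  obtain ⟨p, hp⟩ := hm₁.1.nonempty
  exact Ultrafilter.compl_mem_iff_notMem.1 (hA₂ p (hM₂ hp)) (hA₁ p (hM₁ hp))

end Pool.Agent.Results.MP_be5e04_al.TwoMinimalIdeals
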